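import Pool.Agent.K7.H30.CT.Lines

/-!
# Halving lines of recursively clustered sets

Definitions.
* `GeneralPosition P` (`Pool/Agent/W296/HL3.lean`): no three distinct points of `P` on a line.
* `cr x y z` (`Pool/Agent/W296/HL2.lean`): the cross product of `y - x` and `z - x`; it is `0` iff
  `z` is on the line through the distinct points `x`, `y`.
* `IsBisector P L`, `IsKLine P k L` (`Pool/Agent/R117/KR/Lines.lean`): `L` is a line through two
  distinct points of `P` such that both open sides contain exactly `|P| / 2 - 1` points of `P`,
  respectively one of its open sides contains exactly `k` points of `P`.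
* `IsCluster P A` (`Pool/Agent/K7/H30/CT/Cluster.lean`): `A ⊆ P`, and the convex hull of `A` contains
  no point of `P \ A` and meets no line through two points of `P \ A`.
* `ClusterTree b P A` (there): inductively, `A` is a single point, or the disjoint union of at most
  `b` clusters `A i` of `P` with `ClusterTree b P (A i)`.

Proof idea.  Let `A`, `B` be disjoint clusters of `P` and `x ∈ A`.  The number of points of `P` to
the left of the directed line from `x` to `y` is injective on `B`: points outside `B` do not change
sides if `y` moves in `B`, and the points of `B` are linearly ordered by the angle at `x`.  So at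
most `min (|A|, |B|)` of the ordered pairs in `A × B` have exactly `k` points to the left.  Summing
over the pairs of children of all nodes of the tree one gets `(b - 1) n log₂ n`, because
`min (a, c) ≤ a log₂ ((a + c) / a)`.
-/

set_option autoImplicit false

open Finset

namespace Pool.Agent.Results.MP_e17eac_co.ClusterTrees

open Pool.Agent.W296.HL (GeneralPosition gen_of_gp)
open Pool.Agent.R117.KR (IsKLine IsBisector)
open Pool.Agent.K7.H30.CT

/-- Let `P` be a set of `n` points of the plane in general position which has a tree of clusters
with at most `b` children of every node (of any shape and depth).  Then `P` has at most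
`((b - 1) / 2) n log₂ n` bisectors, and for every `k` at most `(b - 1) n log₂ n` lines through two
points of `P` have exactly `k` points of `P` on one side. -/
theorem result (b : ℕ) (P : Finset (ℝ × ℝ)) (hP : GeneralPosition P) (hT : ClusterTree b P P) :
    ({L | IsBisector P L}.ncard : ℝ) ≤ ((b : ℝ) - 1) / 2 * (#P * Real.logb 2 #P) ∧
      ∀ k : ℕ, ({L | IsKLine P k L}.ncard : ℝ) ≤ ((b : ℝ) - 1) * (#P * Real.logb 2 #P) := by
  have hG := gen_of_gp hP
  constructor
  · have h1 := tree_bound hG (#P / 2 - 1) hT
    have h2 : (2 * {L | IsBisector P L}.ncard : ℝ) ≤ #(pairs P (#P / 2 - 1) P P) := by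
      exact_mod_cast bisector_le_pairs P
    linarith
  · intro k
    have h1 := tree_bound hG k hT
    have h2 : ({L | IsKLine P k L}.ncard : ℝ) ≤ #(pairs P k P P) := by
      exact_mod_cast kline_le_pairs P k
    linarith

end Pool.Agent.Results.MP_e17eac_co.ClusterTrees
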