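import Pool.Agent.K7.H30.CT.WeightedMain

/-!
# Halving lines that join different clusters: a relative form of Dey's bound

Definitions.
* `GeneralPosition P` (`Pool/Agent/W296/HL3.lean`): no three distinct points of `P` on a line.
* `cr x y z` (`Pool/Agent/W296/HL2.lean`): the cross product of `y - x` and `z - x`; it is `0` iff
  `z` is on the line through the distinct points `x`, `y`.
* `IsBisector P L`, `IsKLine P k L` (`Pool/Agent/R117/KR/Lines.lean`): `L` is a line through two
  distinct points of `P` such that both open sides contain exactly `|P| / 2 - 1` points of `P`,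
  respectively one of its open sides contains exactly `k` points of `P`.
* `IsCluster P A` (`Pool/Agent/K7/H30/CT/Cluster.lean`): `A ⊆ P`, and the convex hull of `A` contains
  no point of `P \ A` and meets no line through two points of `P \ A`.
* `Joins A L` (`Pool/Agent/K7/H30/CT/WeightedMain.lean`): `L` contains a point of `A i` and a point of
  `A j` for some `i ≠ j`.

Proof idea.  Let `e (i, j)` be the number of the `k`-edges between `A i` and `A j`; it is at most
`min (|A i|, |A j|)`.  For a real `t` consider the segments between representatives of the pairs of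
clusters with `e (i, j) ≥ t`.  They have at most `min (m, n / t)` vertices, and if two of them
cross, then all the `k`-edges between the clusters cross, so there are at most `n² / (2 t²)`
crossings by Dey's theorem on the crossings of the `k`-edges.  By the crossing lemma there are at
most `C (n min (m, n / t) / t) ^ (2 / 3)` such segments.  The sum over the powers `t` of `2` of
`t` times this bound is at most `C n m ^ (1 / 3)`.
-/

set_option autoImplicit false

open Finset

namespace Pool.Agent.Results.MP_e17eac_co.ClustersOfAnySize

open Pool.Agent.W296.HL (GeneralPosition gen_of_gp)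
open Pool.Agent.R117.KR (IsKLine IsBisector)
open Pool.Agent.K7.H30.CT

/-- Let `P` be a set of `n` points of the plane in general position, and let `A 1, …, A m` be
pairwise disjoint nonempty clusters of `P`, of arbitrary sizes.
1. At most `446 n m ^ (1 / 3)` lines through points of two different clusters have exactly `k` points
   of `P` on one side, for every `k`; and at most `223 n m ^ (1 / 3)` bisectors of `P` join two
   different clusters.
2. If every point of `P` is in one of the clusters, then `P` has at most
   `223 n m ^ (1 / 3) + ∑ |A i| (|A i| - 1) / 2` bisectors, and at most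
   `446 n m ^ (1 / 3) + ∑ |A i| (|A i| - 1) / 2` lines with exactly `k` points on one side. -/
theorem result (P : Finset (ℝ × ℝ)) (hP : GeneralPosition P) (m : ℕ)
    (A : Fin m → Finset (ℝ × ℝ)) (hA : ∀ i, IsCluster P (A i))
    (hd : ∀ i j, i ≠ j → Disjoint (A i) (A j)) (hne : ∀ i, (A i).Nonempty) :
    (({L | IsBisector P L ∧ Joins A L}.ncard : ℝ) ≤ 223 * (#P * (m : ℝ) ^ (1 / 3 : ℝ)) ∧
      ∀ k : ℕ, ({L | IsKLine P k L ∧ Joins A L}.ncard : ℝ) ≤
        446 * (#P * (m : ℝ) ^ (1 / 3 : ℝ))) ∧
    ((∀ p ∈ P, ∃ i, p ∈ A i) →
      ({L | IsBisector P L}.ncard : ℝ) ≤ 223 * (#P * (m : ℝ) ^ (1 / 3 : ℝ)) +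
        ∑ i, ((#(A i)).choose 2 : ℝ) ∧
      ∀ k : ℕ, ({L | IsKLine P k L}.ncard : ℝ) ≤ 446 * (#P * (m : ℝ) ^ (1 / 3 : ℝ)) +
        ∑ i, ((#(A i)).choose 2 : ℝ)) :=
  ⟨⟨bis_cross (gen_of_gp hP) hA hd hne, fun k => kline_cross (gen_of_gp hP) hA hd hne k⟩,
    fun hU => ⟨bis_total (gen_of_gp hP) hA hd hne hU,
      fun k => kline_total (gen_of_gp hP) hA hd hne hU k⟩⟩

end Pool.Agent.Results.MP_e17eac_co.ClustersOfAnySize
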