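import Pool.Agent.K7.H30.HB.Main

/-!
# Halving lines of nearly isotropic sets, and of sets whose halving lines meet a thin convex set

Definitions.
* `GeneralPosition P` (`Pool/Agent/W296/HL3.lean`): no three distinct points of `P` on a line.
* `Line a b c = {p | a * p.1 + b * p.2 = c}`, `IsBisector P L` and `IsKLine P k L`
  (`Pool/Agent/R117/KR/Lines.lean`): `L` is a line through two distinct points of `P` such that
  both open sides contain exactly `|P| / 2 - 1` points of `P`, respectively one of its open sides
  contains exactly `k` points of `P`.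
* `psi v z = Re (z * conj v)` (`Pool/Agent/R117/KR/Core.lean`).
* `NearlyIsotropic P e o D` (`Pool/Agent/K7/H30/HB/Geom.lean`): for all unit vectors `u`, `u'` of
  `ℂ` and all real `c`, the number of the points `p ∈ P` with `c < psi u (e (p - o))` is at most the
  number of those with `c < psi u' (e (p - o))` plus `D`; here `e` is a linear isomorphism of the
  plane to `ℂ`.

Proof idea.  Order the edges with exactly `k` points below by slope.  Edges that are consecutive in
this order are `j`-edges of the set of their endpoints: the other points do not change sides.  If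
every slope is used by at most `V` points, and every point is used during a bounded number of
intervals of slopes, then the edges are cut into `O(n / V)` blocks with at most `2 V` endpoints
each, and Dey's bound holds for each block.  For a nearly isotropic set the point `p` is used when
the signed distance to `o` of the line through `p` is in a window that does not depend on the
slope; this happens on at most four intervals.
-/

set_option autoImplicit false

open Finset

namespace Pool.Agent.Results.MP_e17eac_co.NearlyIsotropicSets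

open Pool.Agent.W296.HL (GeneralPosition gen_of_gp)
open Pool.Agent.R117.KR (IsKLine IsBisector)
open Pool.Agent.K7.H30.HB

open scoped Classical in
/-- Let `P` be a finite set of `n` points of the plane in general position.
1. If `P` is nearly isotropic with error `D`, then at most `300 n (D + 1) ^ (1 / 3)` lines through
   two points of `P` have exactly `k` points of `P` on one side; more precisely, if no subset with
   at most `8 D + 4` points has more than `G` such lines for any `j`, there are at most
   `2 (4 n / (4 D + 3) + 1) G` of them.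
2. If `P` differs in at most `t` points from a set that is mapped into itself by an affine map of
   order `m`, then `P` is nearly isotropic with error `⌊2 (n + t) / m⌋ + t`, and it has at most
   `450 n (n / m + t + 1) ^ (1 / 3)` bisectors and for every `k` at most so many `k`-lines.
3. If the convex set `K` meets every `k`-line of `P` and every family of parallel lines has at most
   `V` points of `P` on its members which meet `K`, then there are at most
   `178 n V ^ (1 / 3)` such lines, and at most `2 (4 n / (V + 1) + 1) G` if no subset with at most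
   `2 V` points has more than `G` such lines for any `j`. -/
theorem result :
    (∀ P : Finset (ℝ × ℝ), GeneralPosition P → ∀ (e : (ℝ × ℝ) ≃ₗ[ℝ] ℂ) (o : ℝ × ℝ) (D : ℕ),
      NearlyIsotropic P e o D → ∀ k : ℕ,
        ({L | IsKLine P k L}.ncard : ℝ) ≤ 300 * #P * ((D : ℝ) + 1) ^ (1 / 3 : ℝ) ∧
        ∀ G : ℝ, (∀ Q ⊆ P, ∀ j, #Q ≤ 8 * D + 4 → ({L | IsKLine Q j L}.ncard : ℝ) ≤ G) →
          (4 * D + 3) * ({L | IsKLine P k L}.ncard : ℝ) ≤ 2 * (4 * #P + (4 * D + 3)) * G) ∧
    (∀ P R : Finset (ℝ × ℝ), GeneralPosition P → ∀ m t : ℕ, 1 ≤ m →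
      ∀ (ξ : ℂ) (e : (ℝ × ℝ) ≃ₗ[ℝ] ℂ) (o : ℝ × ℝ), IsPrimitiveRoot ξ m →
      (∀ p ∈ R, o + e.symm (ξ * e (p - o)) ∈ R) → #(P \ R) + #(R \ P) ≤ t →
        NearlyIsotropic P e o (2 * (#P + t) / m + t) ∧
        ({L | IsBisector P L}.ncard : ℝ) ≤
          450 * #P * ((#P : ℝ) / m + t + 1) ^ (1 / 3 : ℝ) ∧
        ∀ k : ℕ, ({L | IsKLine P k L}.ncard : ℝ) ≤
          450 * #P * ((#P : ℝ) / m + t + 1) ^ (1 / 3 : ℝ)) ∧
    (∀ P : Finset (ℝ × ℝ), GeneralPosition P → ∀ K : Set (ℝ × ℝ), Convex ℝ K → ∀ k V : ℕ,
      (∀ L, IsKLine P k L → (L ∩ K).Nonempty) →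
      (∀ a b : ℝ, (a ≠ 0 ∨ b ≠ 0) →
        #{p ∈ P | ∃ x ∈ K, a * x.1 + b * x.2 = a * p.1 + b * p.2} ≤ V) →
        ({L | IsKLine P k L}.ncard : ℝ) ≤ 178 * #P * (V : ℝ) ^ (1 / 3 : ℝ) ∧
        ∀ G : ℝ, (∀ Q ⊆ P, ∀ j, #Q ≤ 2 * V → ({L | IsKLine Q j L}.ncard : ℝ) ≤ G) →
          (V + 1) * ({L | IsKLine P k L}.ncard : ℝ) ≤ 2 * (4 * #P + (V + 1)) * G) := by
  refine ⟨?_, ?_, ?_⟩
  · intro P hP e o D hI k
    exact ⟨iso_num (gen_of_gp hP) hI k, fun G hG => iso_main (gen_of_gp hP) hI k G hG⟩
  · intro P R hP m t hm ξ e o hξ hR ht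
    refine ⟨sym_iso hm hξ hR ht, ?_, fun k => sym_num (gen_of_gp hP) hm hξ hR ht k⟩
    refine le_trans ?_ (sym_num (gen_of_gp hP) hm hξ hR ht (#P / 2 - 1))
    exact_mod_cast bisector_le P
  · intro P hP K hK k V hmeet hV
    exact ⟨conv_num (gen_of_gp hP) hK hmeet hV,
      fun G hG => conv_main (gen_of_gp hP) hK hmeet hV G hG⟩

end Pool.Agent.Results.MP_e17eac_co.NearlyIsotropicSets
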