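import Pool.Agent.K7.H26.SM.Robust

set_option autoImplicit false

/-!
# Smoothed analysis of halving lines and `k`-edges in the plane

Definitions (in `Pool/Agent/K7/H26/SM/Defs.lean`):

* `orient p q s`: twice the signed area of the triangle `p q s`; `left x p q`: the number of the
  points `x l` strictly to the left of the directed line from `p` to `q`;
* `edges x k`: the number of ordered pairs `(i, j)` with `x i ≠ x j` and exactly `k` of the points
  strictly to the left of the directed line from `x i` to `x j` (directed `k`-edges);
* `Noise f p r κ D`: every `f i` is a probability density on the plane, bounded by `κ / r i ^ 2`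
  and vanishing outside the square with centre `p i` and side `2 * r i`, and any two points of two
  of these squares differ by at most `D` in each coordinate;
* `law f`: the law of independent random points `x i` with densities `f i`;
* `Line`, `GeneralPosition`, `IsBisector`: lines `a x + b y = c`; no three distinct points of the
  set on a line; `L` is a line through two points of `P` with exactly `|P| / 2 - 1` points of `P`
  on each open side.

Idea of the proof.  For a slope `a` let `φ (b)` be the density of the expected number of points on
the line `y = a x + b`, and `γ (b)` the density of pairs `(i, j)` (weighted with the difference of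
the abscissae).  By a change of variables the expected number of `k`-edges is the integral over `a`
and `b` of `γ (b) * P (b)`, where `P (b)` is the probability that about `k` of the other points are
above the line.  Since every direction has only a bounded number of points with about `k` points
above them, the integral of `φ * P` over `b` is at most `4`; also `γ ≤ D φ ^ 2`, and
`γ (b) ≤ τ (a)` with an explicit `τ` whose integral over `a` is at most `64 κ² n ∑ 1 / r i`, because
two squares at distance `d` are met by a common line only for slopes in a window of length about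
`(r i + r j) / d`.  This gives `n √(D / r)`.  The same argument inside `2 K` vertical strips, each of
width at most `D / K` and expected number of points at most `n / K`, gains a factor `K`, while at
most `k + 1` of the `k`-edges directed to the right cross a given vertical line (Lovász).
Optimising `K` gives the exponent `1 / 4`.  If a `k`-edge forms only large triangles then it remains
a `k`-edge when all points are moved a little (after the affine map which takes the largest triangle
to a fixed one); this gives (4) and (5).
-/

namespace Pool.Agent.Results.MP_e17eac_co.SmoothedAnalysis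

open MeasureTheory Finset Function Pool.Agent.K7.H26.SM
open scoped ENNReal

open scoped Classical in
/-- **Smoothed analysis of `k`-edges and halving lines.** -/
theorem result :
    -- (1) the expected number of directed `k`-edges of independent random points, for every `k`
    (∀ (n : ℕ) (f : Fin n → ℝ × ℝ → ℝ≥0∞) (p : Fin n → ℝ × ℝ) (r : Fin n → ℝ) (κ D : ℝ),
      Noise f p r κ D → ∀ k : ℕ, ∫⁻ x, (edges x k : ℝ≥0∞) ∂law f ≤
        ENNReal.ofReal (86 * √κ * √(n * (min (k + 1) (n - 1 - k) : ℕ)) *
          ((∑ i, D / r i) / n) ^ (1 / 4 : ℝ))) ∧
    -- (2) almost surely the points are distinct and in general position, and the expected number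
    -- of halving lines
    (∀ (n : ℕ) (f : Fin n → ℝ × ℝ → ℝ≥0∞) (p : Fin n → ℝ × ℝ) (r : Fin n → ℝ) (κ D : ℝ),
      Noise f p r κ D →
      (∀ᵐ x ∂law f, Injective x ∧ GeneralPosition (univ.image x)) ∧
      AEMeasurable (fun x : Fin n → ℝ × ℝ =>
        ({L | IsBisector (univ.image x) L}.ncard : ℝ≥0∞)) (law f) ∧
      ∫⁻ x, ({L | IsBisector (univ.image x) L}.ncard : ℝ≥0∞) ∂law f ≤
        ENNReal.ofReal (31 * √κ * n * ((∑ i, D / r i) / n) ^ (1 / 4 : ℝ))) ∧
    -- (3) points can be moved a little so that only a few halving lines are left
    (∀ (n : ℕ) (p : Fin n → ℝ × ℝ) (D r : ℝ), 0 < r → r ≤ D →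
      (∀ i j, |(p i).1 - (p j).1| ≤ D ∧ |(p i).2 - (p j).2| ≤ D) →
      ∃ x : Fin n → ℝ × ℝ, Injective x ∧ GeneralPosition (univ.image x) ∧
        (∀ i, |(x i).1 - (p i).1| ≤ r ∧ |(x i).2 - (p i).2| ≤ r) ∧
        ({L | IsBisector (univ.image x) L}.ncard : ℝ) ≤ 21 * n * (D / r) ^ (1 / 4 : ℝ)) ∧
    -- (4) hence, for arbitrary points, only a few `k`-edges do not form a small triangle with a
    -- third point (`V` bounds all the triangles, `A` is a lower bound for those of the edge)
    (∀ (n : ℕ) (p : Fin n → ℝ × ℝ) (k : ℕ) (V A : ℝ), 0 < A → A ≤ V →
      (∀ i j l, |orient (p i) (p j) (p l)| ≤ V) →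
      ((univ.filter fun ij : Fin n × Fin n => p ij.1 ≠ p ij.2 ∧
        left p (p ij.1) (p ij.2) = k ∧ ∀ l, l ≠ ij.1 → l ≠ ij.2 →
          A ≤ |orient (p ij.1) (p ij.2) (p l)|).card : ℝ) ≤
        108 * √(n * (min (k + 1) (n - 1 - k) : ℕ)) * (V / A) ^ (1 / 4 : ℝ)) ∧
    -- (5) the same for the halving lines of a set in general position
    (∀ (P : Finset (ℝ × ℝ)) (V A : ℝ), GeneralPosition P → 0 < A → A ≤ V →
      (∀ p ∈ P, ∀ q ∈ P, ∀ s ∈ P, |orient p q s| ≤ V) →
      ({L | IsBisector P L ∧ ∀ p ∈ P, ∀ q ∈ P, ∀ s ∈ P, p ∈ L → q ∈ L → p ≠ q → s ∉ L →
        A ≤ |orient p q s|}.ncard : ℝ) ≤ 39 * P.card * (V / A) ^ (1 / 4 : ℝ)) := by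
  refine ⟨fun n f p r κ D h k => h.edges_main k, fun n f p r κ D h => ⟨?_, h.aemeas, h.halving⟩,
    fun n p D r hr hrD hD => move p hr hrD hD, fun n p k V A hA hAV hV => ?_,
    fun P V A hP hA hAV hV => robust_bisectors hP hA hAV hV⟩
  · filter_upwards [h.ae_good] with x hx
    exact ⟨hx.1, gp_of hx.2⟩
  · exact robust p k hA hAV fun i j l => (le_abs_self _).trans (hV i j l)

end Pool.Agent.Results.MP_e17eac_co.SmoothedAnalysis
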